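import Mathlib

/-!
Fixed points of balanced (Christoffel) products of two affine maps over a commutative ring.
-/

set_option autoImplicit false

namespace Pool.Agent.H944.BW

open Finset

/-- the rotation by `p` modulo `m` -/
def th (m p s i : ℕ) : ℕ := (i * p + s) % m

theorem th_succ {p q s i : ℕ} (hm : 0 < p + q) :
    ((i * p + s) / (p + q) < ((i + 1) * p + s) / (p + q) ↔ th (p + q) p s (i + 1) < p) ∧
    (th (p + q) p s (i + 1) < p → th (p + q) p s (i + 1) + q = th (p + q) p s i) ∧
    (¬ th (p + q) p s (i + 1) < p → th (p + q) p s (i + 1) = th (p + q) p s i + p) := by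
  unfold th
  have h1 : (i + 1) * p + s = (i * p + s) + p := by ring
  rw [h1]
  generalize i * p + s = y
  obtain ⟨m, hmm⟩ : ∃ m, m = p + q := ⟨_, rfl⟩
  rw [← hmm] at hm ⊢
  have hy := Nat.div_add_mod y m
  have hlt := Nat.mod_lt y hm
  have hy2 := Nat.div_add_mod (y + p) m
  have hlt2 := Nat.mod_lt (y + p) hm
  -- quotient of y+p is y/m or y/m+1
  have key : ((y + p) / m = y / m ∧ (y + p) % m = y % m + p) ∨
      ((y + p) / m = y / m + 1 ∧ (y + p) % m + m = y % m + p) := by
    by_cases hc : y % m + p < m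
    · left
      have h2 : y + p = (y % m + p) + m * (y / m) := by omega
      constructor
      · rw [h2, Nat.add_mul_div_left _ _ hm, Nat.div_eq_of_lt hc, zero_add]
        
      · conv_lhs => rw [h2]
        rw [Nat.add_mul_mod_self_left, Nat.mod_eq_of_lt hc]
    · right
      have hle : m ≤ y % m + p := Nat.not_lt.1 hc
      have h4 : y % m + p - m < m := by omega
      have h2 : y + p = (y % m + p - m) + m * (y / m + 1) := by
        rw [mul_add, mul_one]; omega
      constructor
      · conv_lhs => rw [h2]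
        rw [Nat.add_mul_div_left _ _ hm, Nat.div_eq_of_lt h4, zero_add]
      · have : (y + p) % m = y % m + p - m := by
          conv_lhs => rw [h2]
          rw [Nat.add_mul_mod_self_left, Nat.mod_eq_of_lt h4]
        omega
  rcases key with ⟨h2, h3⟩ | ⟨h2, h3⟩
  · rw [h2, h3]
    refine ⟨⟨fun h => absurd h (lt_irrefl _), fun h => ?_⟩, fun h => ?_, fun _ => rfl⟩ <;> omega
  · rw [h2]
    refine ⟨⟨fun _ => ?_, fun _ => Nat.lt_succ_self _⟩, fun h => ?_, fun h => ?_⟩ <;> omega

theorem th_lt {m p s i : ℕ} (hm : 0 < m) : th m p s i < m := Nat.mod_lt _ hm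

theorem sum_th {M : Type*} [AddCommMonoid M] {m p s : ℕ} (hm : 0 < m) (hc : Nat.Coprime p m)
    (f : ℕ → M) : ∑ i ∈ range m, f (th m p s (i + 1)) = ∑ j ∈ range m, f j := by
  have hinj : Set.InjOn (fun i => th m p s (i + 1)) (range m : Set ℕ) := by
    intro i hi j hj hij
    have hi' : i < m := by simpa using hi
    have hj' : j < m := by simpa using hj
    have h1 : (i + 1) * p + s ≡ (j + 1) * p + s [MOD m] := hij
    have h2 : (i + 1) * p ≡ (j + 1) * p [MOD m] := Nat.ModEq.add_right_cancel' s h1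
    have h3 : i + 1 ≡ j + 1 [MOD m] := Nat.ModEq.cancel_right_of_coprime (by
      rw [Nat.gcd_comm]; exact hc) h2
    have h4 : i ≡ j [MOD m] := Nat.ModEq.add_right_cancel' 1 h3
    exact Nat.ModEq.eq_of_lt_of_lt h4 hi' hj'
  have himg : (range m).image (fun i => th m p s (i + 1)) = range m := by
    apply Finset.eq_of_subset_of_card_le
    · intro x hx
      obtain ⟨i, _, rfl⟩ := Finset.mem_image.1 hx
      exact Finset.mem_range.2 (th_lt hm)
    · rw [Finset.card_image_of_injOn hinj]
  conv_rhs => rw [← himg]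
  rw [Finset.sum_image hinj]

theorem exists_w {G : Type*} [CommGroup G] (α γ : G) {p q : ℕ} (hc : Nat.Coprime p q)
    (h : α ^ q * γ ^ p = 1) : ∃ w : G, α * w ^ p = 1 ∧ w ^ q = γ := by
  have hb : (p : ℤ) * Nat.gcdA p q + q * Nat.gcdB p q = 1 := by
    rw [← Nat.gcd_eq_gcd_ab, hc.gcd_eq_one]; rfl
  set a := Nat.gcdA p q
  set b := Nat.gcdB p q
  have hγ : γ ^ (p : ℤ) = α ^ (-(q : ℤ)) := by
    rw [zpow_neg, zpow_natCast, zpow_natCast]
    exact eq_inv_of_mul_eq_one_right h
  refine ⟨α ^ (-a) * γ ^ b, ?_, ?_⟩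
  · have h1 : (α ^ (-a) * γ ^ b) ^ p = α⁻¹ := by
      rw [← zpow_natCast, mul_zpow, ← zpow_mul, ← zpow_mul, mul_comm b (p : ℤ), zpow_mul γ, hγ,
        ← zpow_mul, ← zpow_add, ← zpow_neg_one]
      congr 1
      linear_combination -hb
    rw [h1, mul_inv_cancel]
  · rw [← zpow_natCast, mul_zpow, ← zpow_mul, ← zpow_mul]
    have h2 : α ^ (-a * (q : ℤ)) = γ ^ ((p : ℤ) * a) := by
      rw [zpow_mul γ, hγ, ← zpow_mul]
      congr 1
      ring
    rw [h2, ← zpow_add]
    conv_rhs => rw [← zpow_one γ]
    congr 1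
    linear_combination hb

theorem core {R : Type*} [CommRing R] (α γ : Rˣ) (β δ : R) {p q s : ℕ} (hp : 1 ≤ p)
    (hc : Nat.Coprime p q) (h : α ^ q * γ ^ p = 1) (X : ℕ → R)
    (hX : ∀ i < p + q, X (i + 1) = if (i * p + s) / (p + q) < ((i + 1) * p + s) / (p + q) then
      γ * X i + δ else α * X i + β) (hX0 : X (p + q) = X 0) :
    β * (γ - 1) = δ * (α - 1) := by
  have hm : 0 < p + q := by omega
  obtain ⟨w, hw1, hw2⟩ := exists_w α γ hc h
  set f : ℕ → R := fun j => (w : R) ^ j * (if j < p then δ else β) with hf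
  have hstep : ∀ i < p + q, (w : R) ^ th (p + q) p s (i + 1) * X (i + 1) =
      (w : R) ^ th (p + q) p s i * X i + f (th (p + q) p s (i + 1)) := by
    intro i hi
    obtain ⟨h1, h2, h3⟩ := th_succ (p := p) (q := q) (s := s) (i := i) hm
    rw [hX i hi]
    by_cases hj : th (p + q) p s (i + 1) < p
    · rw [if_pos (h1.2 hj), hf]
      simp only [if_pos hj]
      rw [← h2 hj, pow_add]
      have : (w : R) ^ q = γ := by rw [← hw2]; push_cast; rfl
      rw [this]
      ring
    · rw [if_neg (fun h' => hj (h1.1 h')), hf]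
      simp only [if_neg hj]
      rw [h3 hj, pow_add]
      have : (α : R) * (w : R) ^ p = 1 := by
        have := congrArg (fun u : Rˣ => (u : R)) hw1
        simpa using this
      linear_combination (w : R) ^ th (p + q) p s i * X i * this
  have hsum : ∑ j ∈ range (p + q), f j = 0 := by
    rw [← sum_th (s := s) hm ((Nat.coprime_self_add_right).2 hc) f]
    have h4 : ∀ n ≤ p + q, ∑ i ∈ range n, f (th (p + q) p s (i + 1)) =
        (w : R) ^ th (p + q) p s n * X n - (w : R) ^ th (p + q) p s 0 * X 0 := by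
      intro n
      induction n with
      | zero => intro _; simp
      | succ n ih =>
        intro hn
        rw [Finset.sum_range_succ, ih (by omega), hstep n (by omega)]
        ring
    rw [h4 _ le_rfl, hX0]
    have : th (p + q) p s (p + q) = th (p + q) p s 0 := by
      unfold th
      rw [Nat.zero_mul, Nat.zero_add, Nat.mul_add_mod]
    rw [this, sub_self]
  have hsum2 : ∑ j ∈ range (p + q), f j = (∑ j ∈ range p, (w : R) ^ j) * δ +
      (w : R) ^ p * (∑ j ∈ range q, (w : R) ^ j) * β := by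
    rw [Finset.sum_range_add]
    congr 1
    · rw [Finset.sum_mul]
      refine Finset.sum_congr rfl fun j hj => ?_
      rw [hf]
      simp only [if_pos (Finset.mem_range.1 hj)]
    · rw [Finset.mul_sum, Finset.sum_mul]
      refine Finset.sum_congr rfl fun j _ => ?_
      rw [hf]
      simp only [if_neg (show ¬ p + j < p by omega), pow_add]
  rw [hsum2] at hsum
  have g1 := geom_sum_mul (w : R) p
  have g2 := geom_sum_mul (w : R) q
  have e1 : (w : R) ^ q = γ := by rw [← hw2]; push_cast; rfl
  have e2 : (α : R) * (w : R) ^ p = 1 := by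
    have := congrArg (fun u : Rˣ => (u : R)) hw1
    simpa using this
  rw [e1] at g2
  -- multiply by (w - 1) * α
  have h5 : (α : R) * (((w : R) ^ p - 1) * δ + (w : R) ^ p * ((γ : R) - 1) * β) = 0 := by
    rw [← g1, ← g2]
    linear_combination (α : R) * ((w : R) - 1) * hsum
  linear_combination h5 + (-δ - ((γ : R) - 1) * β) * e2

end Pool.Agent.H944.BW
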