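import Mathlib
import Pool.Agent.H944.BW.Ring

/-!
Parity words of cycles of the 3x+1 map that are balanced products of two words.
-/

set_option autoImplicit false

namespace Pool.Agent.H944.BW

open Finset

/-- The 3x+1 map on the integers. -/
def T (x : ℤ) : ℤ := if x % 2 = 0 then x / 2 else (3 * x + 1) / 2

/-- The parity word of length `n` of `x`: its letter number `i` is `true` if `T^i x` is odd. -/
def word (x : ℤ) (n : ℕ) : List Bool := (List.range n).map fun i => decide (T^[i] x % 2 = 1)

/-- The word in `u` and `v` whose factor number `i < p + q` is `v` if the integer part of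
`(i p + s) / (p + q)` increases from `i` to `i + 1`, and `u` otherwise. -/
def balanced (p q s : ℕ) (u v : List Bool) : List Bool :=
  (List.range (p + q)).flatMap fun i =>
    if (i * p + s) / (p + q) < ((i + 1) * p + s) / (p + q) then v else u

theorem word_length (x : ℤ) (n : ℕ) : (word x n).length = n := by simp [word]

theorem word_succ (x : ℤ) (n : ℕ) : word x (n + 1) = decide (x % 2 = 1) :: word (T x) n := by
  unfold word
  rw [List.range_succ_eq_map, List.map_cons, List.map_map]
  rfl

theorem word_add (x : ℤ) (a b : ℕ) : word x (a + b) = word x a ++ word (T^[a] x) b := by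
  induction a generalizing x with
  | zero => rw [Nat.zero_add]; rfl
  | succ a ih =>
    rw [show a + 1 + b = (a + b) + 1 by ring, word_succ, ih, word_succ]
    rfl

/-- the constant of the affine map of a word -/
def cst : List Bool → ℤ
  | [] => 0
  | b :: u => (if b then 3 ^ (u.count true) else 0) + 2 * cst u

theorem step (u : List Bool) (x : ℤ) (h : word x u.length = u) :
    2 ^ u.length * T^[u.length] x = 3 ^ (u.count true) * x + cst u := by
  induction u generalizing x with
  | nil => simp [cst]
  | cons b u ih =>
    rw [List.length_cons, word_succ] at h
    have h1 := (List.cons.inj h).1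
    have h2 := (List.cons.inj h).2
    have h3 := ih (T x) h2
    rw [List.length_cons, Function.iterate_succ_apply]
    cases b with
    | false =>
      have hx : ¬ x % 2 = 1 := of_decide_eq_false h1
      have hT : 2 * T x = x := by unfold T; rw [if_pos (by omega)]; omega
      simp only [cst, List.count_cons, Bool.false_eq_true, if_false, beq_iff_eq, add_zero]
      rw [pow_succ]
      linear_combination 2 * h3 + 3 ^ (List.count true u) * hT
    | true =>
      have hx : x % 2 = 1 := of_decide_eq_true h1
      have hT : 2 * T x = 3 * x + 1 := by unfold T; rw [if_neg (by omega)]; omega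
      simp only [cst, List.count_cons, if_true, beq_self_eq_true]
      rw [pow_succ, pow_succ]
      linear_combination 2 * h3 + 3 ^ (List.count true u) * hT

theorem cst_nonneg (u : List Bool) : 0 ≤ cst u := by
  induction u with
  | nil => simp [cst]
  | cons b u ih =>
    simp only [cst]
    split_ifs <;> positivity

theorem cst_le (u : List Bool) :
    cst u * 2 ^ (u.count true) ≤ 2 ^ u.length * (3 ^ (u.count true) - 2 ^ (u.count true)) := by
  induction u with
  | nil => simp [cst]
  | cons b u ih =>
    have hk : (2 : ℤ) ^ (u.count true) ≤ 2 ^ u.length :=
      pow_le_pow_right₀ (by norm_num) List.count_le_length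
    have h3 : (0 : ℤ) < 3 ^ (u.count true) := by positivity
    cases b with
    | false =>
      simp only [cst, List.count_cons, Bool.false_eq_true, if_false, beq_iff_eq, add_zero,
        zero_add, List.length_cons]
      rw [pow_succ]
      linarith
    | true =>
      simp only [cst, List.count_cons, if_true, beq_self_eq_true, List.length_cons]
      rw [pow_succ, pow_succ, pow_succ]
      nlinarith

theorem cst_le' (u : List Bool) :
    (cst u : ℝ) ≤ 2 ^ u.length * (3 / 2) ^ (u.count true) := by
  have h1 : (cst u : ℝ) * 2 ^ (u.count true) ≤ 2 ^ u.length * 3 ^ (u.count true) := by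
    have h2 : cst u * 2 ^ (u.count true) ≤ 2 ^ u.length * 3 ^ (u.count true) := by
      refine (cst_le u).trans ?_
      have : (0 : ℤ) ≤ 2 ^ (u.count true) := by positivity
      have h3 : (0 : ℤ) ≤ 2 ^ u.length := by positivity
      nlinarith
    exact_mod_cast h2
  rw [div_pow, ← mul_div_assoc, le_div_iff₀ (by positivity)]
  exact h1

/-- positions of the blocks -/
def pos (B : ℕ → List Bool) (i : ℕ) : ℕ := ∑ j ∈ range i, (B j).length

theorem pos_succ (B : ℕ → List Bool) (i : ℕ) : pos B (i + 1) = pos B i + (B i).length := by
  unfold pos
  rw [Finset.sum_range_succ]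

theorem length_flatMap (B : ℕ → List Bool) (m : ℕ) :
    ((List.range m).flatMap B).length = pos B m := by
  induction m with
  | zero => simp [pos]
  | succ m ih =>
    rw [List.range_succ, List.flatMap_append, List.length_append, ih, pos_succ]
    simp

theorem blocks (x : ℤ) (B : ℕ → List Bool) (m : ℕ)
    (h : word x (pos B m) = (List.range m).flatMap B) :
    ∀ i < m, word (T^[pos B i] x) (B i).length = B i := by
  induction m with
  | zero => intro i hi; omega
  | succ m ih =>
    rw [pos_succ, word_add, List.range_succ, List.flatMap_append] at h
    have h1 := List.append_inj h (by rw [word_length, length_flatMap])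
    intro i hi
    rcases Nat.lt_succ_iff_lt_or_eq.1 hi with h2 | rfl
    · exact ih h1.1 i h2
    · have := h1.2
      simpa using this

end Pool.Agent.H944.BW
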