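import Mathlib
import Pool.Agent.H944.BW.Div

/-!
The case of commuting words, the size of the constant of the commutator, and periodic points.
-/

set_option autoImplicit false

namespace Pool.Agent.H944.BW

open Finset

/-- the affine map of a word over the rational numbers -/
def aff (u : List Bool) (y : ℚ) : ℚ := (3 ^ (u.count true) * y + cst u) / 2 ^ u.length

variable {x : ℤ} {p q s : ℕ} {u v : List Bool}

theorem aff_comm (h : com u v = 0) (y : ℚ) : aff u (aff v y) = aff v (aff u y) := by
  have h1 : (cst u : ℚ) * (3 ^ (v.count true) - 2 ^ v.length) -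
      cst v * (3 ^ (u.count true) - 2 ^ u.length) = 0 := by
    have := congrArg (fun z : ℤ => (z : ℚ)) h
    unfold com at this
    push_cast at this
    exact this
  unfold aff
  field_simp
  linear_combination -h1

theorem Pt.fix (P : Pt x p q s u v) (hq : 1 ≤ q) (hu : 1 ≤ u.length) (h : com u v = 0)
    (w : List Bool) (hw : w = u ∨ w = v) : aff w x = x := by
  set m := p + q with hm
  set B := blk p q s u v with hB
  set X : ℕ → ℚ := fun i => ((T^[pos B i] x : ℤ) : ℚ) with hXdef
  have hX : ∀ i < m, X (i + 1) = aff (B i) (X i) := by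
    intro i hi
    have h1 := congrArg (fun z : ℤ => (z : ℚ)) (P.recur i hi)
    push_cast at h1
    unfold aff
    rw [eq_div_iff (by positivity)]
    rw [mul_comm]
    exact h1
  have hcomm : ∀ i (y : ℚ), aff w (aff (B i) y) = aff (B i) (aff w y) := by
    intro i y
    have h2 : B i = u ∨ B i = v := by
      rw [hB]
      unfold blk
      split_ifs
      · exact Or.inr rfl
      · exact Or.inl rfl
    rcases hw with rfl | rfl <;> rcases h2 with h3 | h3 <;> rw [h3]
    · exact aff_comm h y
    · exact (aff_comm h y).symm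
  have hE : ∀ i ≤ m, (2 : ℚ) ^ pos B i * (aff w (X i) - X i) =
      3 ^ (∑ j ∈ range i, (B j).count true) * (aff w (X 0) - X 0) := by
    intro i
    induction i with
    | zero => intro _; simp [pos]
    | succ i ih =>
      intro hi
      have h1 := ih (by omega)
      rw [hX i (by omega), hcomm, pos_succ, Finset.sum_range_succ, pow_add, pow_add]
      have h2 : ∀ y z : ℚ, (2 : ℚ) ^ (B i).length * (aff (B i) y - aff (B i) z) =
          3 ^ (B i).count true * (y - z) := by
        intro y z
        unfold aff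
        field_simp
        ring
      calc (2 : ℚ) ^ pos B i * 2 ^ (B i).length * (aff (B i) (aff w (X i)) - aff (B i) (X i))
          = 2 ^ pos B i * (2 ^ (B i).length * (aff (B i) (aff w (X i)) - aff (B i) (X i))) := by ring
        _ = 3 ^ (B i).count true * (2 ^ pos B i * (aff w (X i) - X i)) := by rw [h2]; ring
        _ = _ := by rw [h1]; ring
  have h3 := hE m le_rfl
  have hXm : X m = X 0 := by
    simp only [hXdef]
    rw [P.last]
    rfl
  rw [hXm, P.pos_eq, sum_blk P.hp P.hc u v (List.count true)] at h3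
  have hne : (2 : ℚ) ^ (q * u.length + p * v.length) ≠
      3 ^ (q * u.count true + p * v.count true) := by
    intro h4
    have h5 : (2 : ℕ) ^ (q * u.length + p * v.length) = 3 ^ (q * u.count true + p * v.count true) := by
      exact_mod_cast h4
    have h6 : 1 ≤ q * u.length + p * v.length := by nlinarith
    have h7 : 2 ∣ 3 ^ (q * u.count true + p * v.count true) := by
      rw [← h5]
      exact dvd_pow_self 2 (by omega)
    have := Nat.prime_two.dvd_of_dvd_pow h7
    omega
  have h8 : aff w (X 0) - X 0 = 0 := by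
    have h9 : ((2 : ℚ) ^ (q * u.length + p * v.length) -
      3 ^ (q * u.count true + p * v.count true)) * (aff w (X 0) - X 0) = 0 := by
      linear_combination h3
    rcases mul_eq_zero.1 h9 with h10 | h10
    · exact absurd (sub_eq_zero.1 h10) hne
    · exact h10
  have h11 : X 0 = (x : ℚ) := by simp [hXdef, pos]
  rw [h11] at h8
  linarith

theorem Pt.com_ne (P : Pt x p q s u v) (hq : 1 ≤ q) (hu : 1 ≤ u.length) (hv : 1 ≤ v.length)
    (hmin : ∀ n, 1 ≤ n → n < q * u.length + p * v.length → T^[n] x ≠ x) : com u v ≠ 0 := by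
  intro h
  have hp := P.hp
  set B := blk p q s u v with hB
  have h2 : B 0 = u ∨ B 0 = v := by
    rw [hB]
    unfold blk
    split_ifs
    · exact Or.inr rfl
    · exact Or.inl rfl
  have h3 := P.fix hq hu h (B 0) h2
  have h4 := congrArg (fun z : ℤ => (z : ℚ)) (P.recur 0 (by omega))
  push_cast at h4
  have h5 : pos B 0 = 0 := by simp [pos]
  have h6 : pos B (0 + 1) = (B 0).length := by rw [pos_succ, h5, zero_add]
  rw [← hB, h6, h5] at h4
  have h7 : ((T^[(B 0).length] x : ℤ) : ℚ) = x := by
    have h8 : aff (B 0) (x : ℚ) = ((T^[(B 0).length] x : ℤ) : ℚ) := by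
      unfold aff
      rw [div_eq_iff (by positivity), mul_comm _ ((2 : ℚ) ^ _)]
      exact h4.symm
    rw [← h8, h3]
  have h9 : T^[(B 0).length] x = x := by exact_mod_cast h7
  refine hmin (B 0).length ?_ ?_ h9
  · rcases h2 with h | h <;> rw [h]
    · exact hu
    · exact hv
  · rcases h2 with h | h <;> rw [h] <;> nlinarith

theorem com_le (u v : List Bool) : |(com u v : ℝ)| ≤
    2 * (2 ^ (u.length + v.length) * (3 / 2) ^ (u.count true + v.count true)) := by
  have key : ∀ u v : List Bool, |(cst u : ℝ) * (3 ^ (v.count true) - 2 ^ v.length)| ≤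
      2 ^ (u.length + v.length) * (3 / 2) ^ (u.count true + v.count true) := by
    intro u v
    have h1 := cst_le' u
    have h2 : (0 : ℝ) ≤ cst u := by exact_mod_cast cst_nonneg u
    have h3 : |(3 : ℝ) ^ (v.count true) - 2 ^ v.length| ≤ 2 ^ v.length * (3 / 2) ^ (v.count true) := by
      have h4 : (3 : ℝ) ^ (v.count true) ≤ 2 ^ v.length * (3 / 2) ^ (v.count true) := by
        have h5 : (2 : ℝ) ^ (v.count true) ≤ 2 ^ v.length :=
          pow_le_pow_right₀ (by norm_num) List.count_le_length
        calc (3 : ℝ) ^ (v.count true) = 2 ^ (v.count true) * (3 / 2) ^ (v.count true) := by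
              rw [← mul_pow]; norm_num
          _ ≤ _ := mul_le_mul_of_nonneg_right h5 (by positivity)
      have h6 : (2 : ℝ) ^ v.length ≤ 2 ^ v.length * (3 / 2) ^ (v.count true) :=
        le_mul_of_one_le_right (by positivity) (one_le_pow₀ (by norm_num))
      have h7 : (0 : ℝ) ≤ 3 ^ (v.count true) := by positivity
      have h8 : (0 : ℝ) ≤ 2 ^ v.length := by positivity
      rw [abs_le]
      constructor <;> linarith
    rw [abs_mul, abs_of_nonneg h2]
    calc (cst u : ℝ) * |(3 : ℝ) ^ (v.count true) - 2 ^ v.length|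
        ≤ (2 ^ u.length * (3 / 2) ^ (u.count true)) * (2 ^ v.length * (3 / 2) ^ (v.count true)) :=
          mul_le_mul h1 h3 (abs_nonneg _) (by positivity)
      _ = _ := by rw [pow_add, pow_add]; ring
  have h1 := key u v
  have h2 := key v u
  rw [add_comm v.length, add_comm (v.count true)] at h2
  unfold com
  push_cast
  refine (abs_sub _ _).trans ?_
  linarith

/-- There are finitely many points of bounded period. -/
theorem finite_periodic (M : ℕ) : {x : ℤ | ∃ n, 1 ≤ n ∧ n ≤ M ∧ T^[n] x = x}.Finite := by
  apply Set.Finite.subset (Set.finite_Icc (-(2 ^ M * 3 ^ M : ℤ)) (2 ^ M * 3 ^ M))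
  rintro x ⟨n, hn1, hnM, hx⟩
  have h1 := step (word x n) x (by rw [word_length])
  rw [word_length, hx] at h1
  set k := (word x n).count true with hk
  have hkn : k ≤ n := by
    have := List.count_le_length (a := true) (l := word x n)
    rwa [word_length] at this
  have hne : (2 : ℤ) ^ n ≠ 3 ^ k := by
    intro h4
    have h5 : (2 : ℕ) ^ n = 3 ^ k := by exact_mod_cast h4
    have h7 : 2 ∣ 3 ^ k := by
      rw [← h5]
      exact dvd_pow_self 2 (by omega)
    have := Nat.prime_two.dvd_of_dvd_pow h7
    omega
  have h2 := cst_le (word x n)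
  have h3 := cst_nonneg (word x n)
  rw [word_length, ← hk] at h2
  set c := cst (word x n) with hc
  have h4 : c ≤ 2 ^ n * 3 ^ k := by
    have h5 : (1 : ℤ) ≤ 2 ^ k := one_le_pow₀ (by norm_num)
    have h6 : (0 : ℤ) ≤ 2 ^ n := by positivity
    nlinarith
  have h5 : (2 : ℤ) ^ n * 3 ^ k ≤ 2 ^ M * 3 ^ M :=
    mul_le_mul (pow_le_pow_right₀ (by norm_num) hnM)
      (pow_le_pow_right₀ (by norm_num) (hkn.trans hnM)) (by positivity) (by positivity)
  have h6 : |x| ≤ c := by
    have h7 : (2 ^ n - 3 ^ k : ℤ) * x = c := by linarith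
    have h8 : 1 ≤ |(2 ^ n - 3 ^ k : ℤ)| := Int.one_le_abs (sub_ne_zero.2 hne)
    calc |x| = 1 * |x| := (one_mul _).symm
      _ ≤ |(2 ^ n - 3 ^ k : ℤ)| * |x| := mul_le_mul_of_nonneg_right h8 (abs_nonneg _)
      _ = |c| := by rw [← abs_mul, h7]
      _ = c := abs_of_nonneg h3
  have h9 := abs_le.1 (h6.trans (h4.trans h5))
  exact Set.mem_Icc.2 h9

end Pool.Agent.H944.BW
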